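import Mathlib

/-!
# MP_5796a1_co — the gap between the strong vertex span and the strong edge span is at most one

`strongVertexSpan H` and `strongEdgeSpan H` are the two-walker spans of a graph `H`.  We prove that
for every finite connected graph `H` both maxima exist, that
`σ_E(H) ≤ σ_V(H) ≤ σ_E(H) + 1`, and that a graph on six vertices has `σ_V = 2` and `σ_E = 1`.
Hence `D = sup_H (σ_V(H) - σ_E(H)) = 1`, and the supremum is attained.
-/

namespace Pool.Agent.Results.MP_5796a1_co.GapOne

open SimpleGraph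

/-- A weak homomorphism `f : G → H`: an edge is sent to an edge or to a single vertex. -/
def IsWeakHom {V W : Type*} (G : SimpleGraph V) (H : SimpleGraph W) (f : V → W) : Prop :=
  ∀ ⦃u v : V⦄, G.Adj u v → f u = f v ∨ H.Adj (f u) (f v)

/-- Edge surjective: surjective, and every edge `uv` of `H` arises as `u = f x`, `v = f y` for an
edge `xy` of `G`. -/
def IsEdgeSurjective {V W : Type*} (G : SimpleGraph V) (H : SimpleGraph W) (f : V → W) : Prop :=
  Function.Surjective f ∧ ∀ u v : W, H.Adj u v → ∃ x y : V, G.Adj x y ∧ f x = u ∧ f y = v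

/-- `m(f, g) = min_u d_H(f u, g u)`. -/
noncomputable def minDist {V W : Type*} (H : SimpleGraph W) (f g : V → W) : ℕ :=
  ⨅ u : V, H.dist (f u) (g u)

/-- The values `m_P(f, g)` over all paths `P` (the path on `m + 1` vertices, `m ≥ 0`) and all pairs
of surjective weak homomorphisms `f, g : P → H`. -/
def vertexValues {W : Type*} (H : SimpleGraph W) : Set ℕ :=
  {k | ∃ (m : ℕ) (f g : Fin (m + 1) → W), IsWeakHom (pathGraph (m + 1)) H f ∧
    IsWeakHom (pathGraph (m + 1)) H g ∧ Function.Surjective f ∧ Function.Surjective g ∧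
    k = minDist H f g}

/-- The values `m_P(f, g)` over all paths `P` (the path on `m + 1` vertices, `m ≥ 0`) and all pairs
of edge surjective weak homomorphisms `f, g : P → H`. -/
def edgeValues {W : Type*} (H : SimpleGraph W) : Set ℕ :=
  {k | ∃ (m : ℕ) (f g : Fin (m + 1) → W), IsWeakHom (pathGraph (m + 1)) H f ∧
    IsWeakHom (pathGraph (m + 1)) H g ∧ IsEdgeSurjective (pathGraph (m + 1)) H f ∧
    IsEdgeSurjective (pathGraph (m + 1)) H g ∧ k = minDist H f g}

/-- The strong vertex span `σ_V(H)`. -/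
noncomputable def strongVertexSpan {W : Type*} (H : SimpleGraph W) : ℕ := sSup (vertexValues H)

/-- The strong edge span `σ_E(H)`. -/
noncomputable def strongEdgeSpan {W : Type*} (H : SimpleGraph W) : ℕ := sSup (edgeValues H)

section general

variable {W : Type*} (H : SimpleGraph W)

/-- One time step of the two walkers. -/
def Step (s t : W × W) : Prop :=
  (s.1 = t.1 ∨ H.Adj s.1 t.1) ∧ (s.2 = t.2 ∨ H.Adj s.2 t.2)

/-- A detour: from `s` visit each of the states of `ts`, coming back to `s` each time. -/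
def detour (s : W × W) (ts : List (W × W)) : List (W × W) := s :: ts.flatMap (fun t => [t, s])

lemma detour_chain (s : W × W) (ts : List (W × W)) (h : ∀ t ∈ ts, Step H s t ∧ Step H t s) :
    (detour s ts).IsChain (Step H) := by
  induction ts with
  | nil => simp [detour]
  | cons t ts ih =>
    have ih' := ih (fun t' ht' => h t' (List.mem_cons_of_mem _ ht'))
    have ht := h t List.mem_cons_self
    simp only [detour, List.flatMap_cons, List.cons_append, List.nil_append] at ih' ⊢
    exact List.IsChain.cons_cons ht.1 (List.IsChain.cons_cons ht.2 ih')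

lemma detour_getLast (s : W × W) (ts : List (W × W)) : (detour s ts).getLast? = some s := by
  induction ts with
  | nil => simp [detour]
  | cons t ts ih =>
    simp only [detour, List.flatMap_cons, List.cons_append, List.nil_append] at ih ⊢
    rw [List.getLast?_cons_cons, List.getLast?_cons_cons]
    exact ih

lemma detour_mem (s : W × W) (ts : List (W × W)) {x : W × W} (hx : x ∈ detour s ts) :
    x = s ∨ x ∈ ts := by
  simp only [detour, List.mem_cons, List.mem_flatMap, List.not_mem_nil, or_false] at hx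
  rcases hx with h | ⟨a, ha, h | h⟩
  · exact Or.inl h
  · exact Or.inr (h ▸ ha)
  · exact Or.inl h

lemma detour_infix (s : W × W) (ts : List (W × W)) {t : W × W} (ht : t ∈ ts) :
    [t, s] <:+: detour s ts := by
  obtain ⟨a, b, rfl⟩ := List.append_of_mem ht
  refine ⟨s :: a.flatMap (fun t => [t, s]), b.flatMap (fun t => [t, s]), ?_⟩
  simp [detour]

/-- Insert all detours in a joint walk. -/
def blow (nb : W × W → List (W × W)) : List (W × W) → List (W × W)
  | [] => []
  | s :: l => detour s (nb s) ++ blow nb l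

lemma blow_head (nb : W × W → List (W × W)) (l : List (W × W)) :
    (blow nb l).head? = l.head? := by
  cases l with
  | nil => rfl
  | cons s l => simp [blow, detour]

lemma blow_chain (nb : W × W → List (W × W)) (hnb : ∀ s, ∀ t ∈ nb s, Step H s t ∧ Step H t s)
    (l : List (W × W)) (hl : l.IsChain (Step H)) : (blow nb l).IsChain (Step H) := by
  induction l with
  | nil => simp [blow]
  | cons s l ih =>
    have h1 : l.IsChain (Step H) := hl.tail
    rw [blow, List.isChain_append]
    refine ⟨detour_chain H s _ (hnb s), ih h1, ?_⟩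
    intro x hx y hy
    rw [detour_getLast] at hx
    rw [blow_head] at hy
    obtain rfl : s = x := by simpa using hx
    cases l with
    | nil => simp at hy
    | cons z l =>
      obtain rfl : z = y := by simpa using hy
      exact (List.isChain_cons_cons.1 hl).1

lemma blow_infix (nb : W × W → List (W × W)) (l : List (W × W)) {s : W × W} (hs : s ∈ l) :
    detour s (nb s) <:+: blow nb l := by
  induction l with
  | nil => simp at hs
  | cons z l ih =>
    rw [blow]
    rcases List.mem_cons.1 hs with rfl | h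
    · exact (List.prefix_append _ _).isInfix
    · exact (ih h).trans (List.suffix_append _ _).isInfix

lemma blow_mem (nb : W × W → List (W × W)) (l : List (W × W)) {x : W × W}
    (hx : x ∈ blow nb l) : ∃ s ∈ l, x = s ∨ x ∈ nb s := by
  induction l with
  | nil => simp [blow] at hx
  | cons z l ih =>
    rw [blow, List.mem_append] at hx
    rcases hx with h | h
    · exact ⟨z, List.mem_cons_self, detour_mem _ _ h⟩
    · obtain ⟨s, hs, h'⟩ := ih h
      exact ⟨s, List.mem_cons_of_mem _ hs, h'⟩

/-- A nonempty list of states forming a joint walk gives two maps on a path. -/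
lemma funs_of_list (L : List (W × W)) (hne : L ≠ []) (hL : L.IsChain (Step H)) :
    ∃ (m : ℕ) (f g : Fin (m + 1) → W), IsWeakHom (pathGraph (m + 1)) H f ∧
      IsWeakHom (pathGraph (m + 1)) H g ∧ (∀ i, (f i, g i) ∈ L) ∧
      (∀ s ∈ L, ∃ i, (f i, g i) = s) ∧
      (∀ s t, [s, t] <:+: L → ∃ i j, (pathGraph (m + 1)).Adj i j ∧ (f i, g i) = s ∧
        (f j, g j) = t) := by
  obtain ⟨m, hm⟩ : ∃ m, L.length = m + 1 :=
    ⟨L.length - 1, by have := List.length_pos_of_ne_nil hne; omega⟩
  have hlt : ∀ i : Fin (m + 1), i.val < L.length := fun i => by rw [hm]; exact i.2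
  have key : ∀ i j : Fin (m + 1), i.val + 1 = j.val → Step H (L[i.val]'(hlt i)) (L[j.val]'(hlt j)) := by
    intro i j hij
    have h := List.isChain_iff_getElem.1 hL i.val (by have := hlt j; omega)
    have : L[j.val]'(hlt j) = L[i.val + 1]'(by have := hlt j; omega) := by
      congr 1; exact hij.symm
    rw [this]; exact h
  refine ⟨m, fun i => (L[i.val]'(hlt i)).1, fun i => (L[i.val]'(hlt i)).2, ?_, ?_, ?_, ?_, ?_⟩
  · intro u v huv
    rw [pathGraph_adj] at huv
    rcases huv with h | h
    · exact (key u v h).1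
    · rcases (key v u h).1 with h' | h'
      · exact Or.inl h'.symm
      · exact Or.inr h'.symm
  · intro u v huv
    rw [pathGraph_adj] at huv
    rcases huv with h | h
    · exact (key u v h).2
    · rcases (key v u h).2 with h' | h'
      · exact Or.inl h'.symm
      · exact Or.inr h'.symm
  · intro i
    exact List.getElem_mem _
  · intro s hs
    obtain ⟨i, hi, rfl⟩ := List.getElem_of_mem hs
    exact ⟨⟨i, by omega⟩, rfl⟩
  · rintro s t ⟨a, b, hab⟩
    have hlen : a.length + 2 + b.length = L.length := by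
      rw [← hab]; simp; omega
    refine ⟨⟨a.length, by omega⟩, ⟨a.length + 1, by omega⟩, ?_, ?_, ?_⟩
    · rw [pathGraph_adj]; left; rfl
    · subst hab; simp
    · subst hab
      simp only [Prod.mk.eta]
      rw [List.getElem_append_left (by simp), List.getElem_append_right (by simp)]
      simp

/-- The two walkers' maps give a joint walk. -/
lemma list_of_funs {m : ℕ} (f g : Fin (m + 1) → W) (hf : IsWeakHom (pathGraph (m + 1)) H f)
    (hg : IsWeakHom (pathGraph (m + 1)) H g) :
    (List.ofFn (fun i => (f i, g i))).IsChain (Step H) := by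
  rw [List.isChain_iff_getElem]
  intro i hi
  rw [List.length_ofFn] at hi
  simp only [List.getElem_ofFn]
  have hadj : (pathGraph (m + 1)).Adj ⟨i, by omega⟩ ⟨i + 1, hi⟩ := by
    rw [pathGraph_adj]; left; rfl
  exact ⟨hf hadj, hg hadj⟩

variable [Finite W]

/-- The main construction: all edges can be covered at the price of one unit of distance. -/
lemma edge_cover (hH : H.Connected) (l : List (W × W)) (hl : l.IsChain (Step H))
    (h1 : ∀ w, ∃ s ∈ l, s.1 = w) (h2 : ∀ w, ∃ s ∈ l, s.2 = w) (k : ℕ)
    (hk : ∀ s ∈ l, k ≤ H.dist s.1 s.2) :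
    ∃ (m : ℕ) (f g : Fin (m + 1) → W), IsWeakHom (pathGraph (m + 1)) H f ∧
      IsWeakHom (pathGraph (m + 1)) H g ∧ IsEdgeSurjective (pathGraph (m + 1)) H f ∧
      IsEdgeSurjective (pathGraph (m + 1)) H g ∧ ∀ i, k ≤ H.dist (f i) (g i) + 1 := by
  classical
  have := Fintype.ofFinite W
  set nb : W × W → List (W × W) := fun s =>
    (Finset.univ.filter (fun t : W × W => (H.Adj s.1 t.1 ∧ s.2 = t.2) ∨
      (s.1 = t.1 ∧ H.Adj s.2 t.2))).toList with hnbdef
  have hmem : ∀ s t, t ∈ nb s ↔ ((H.Adj s.1 t.1 ∧ s.2 = t.2) ∨ (s.1 = t.1 ∧ H.Adj s.2 t.2)) := by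
    intro s t; simp [hnbdef]
  have hnb : ∀ s, ∀ t ∈ nb s, Step H s t ∧ Step H t s := by
    intro s t ht
    rw [hmem] at ht
    rcases ht with ⟨ha, hb⟩ | ⟨ha, hb⟩
    · exact ⟨⟨Or.inr ha, Or.inl hb⟩, ⟨Or.inr ha.symm, Or.inl hb.symm⟩⟩
    · exact ⟨⟨Or.inl ha, Or.inr hb⟩, ⟨Or.inl ha.symm, Or.inr hb.symm⟩⟩
  obtain ⟨w0⟩ := hH.nonempty
  have hne : blow nb l ≠ [] := by
    obtain ⟨s, hs, -⟩ := h1 w0
    intro h
    have := blow_infix nb l hs
    rw [h] at this
    have := List.infix_nil.1 this
    simp [detour] at this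
  obtain ⟨m, f, g, hf, hg, hin, hcov, hpair⟩ :=
    funs_of_list H (blow nb l) hne (blow_chain H nb hnb l hl)
  have hsub : ∀ s ∈ l, s ∈ blow nb l := by
    intro s hs
    exact (blow_infix nb l hs).subset (by simp [detour])
  refine ⟨m, f, g, hf, hg, ⟨?_, ?_⟩, ⟨?_, ?_⟩, ?_⟩
  · intro w
    obtain ⟨s, hs, hw⟩ := h1 w
    obtain ⟨i, hi⟩ := hcov s (hsub s hs)
    exact ⟨i, by rw [← hw, ← hi]⟩
  · intro u v huv
    obtain ⟨s, hs, hw⟩ := h1 v
    have ht : (u, s.2) ∈ nb s := by
      rw [hmem]; left; exact ⟨by rw [hw]; exact huv.symm, rfl⟩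
    obtain ⟨i, j, hij, hi, hj⟩ := hpair (u, s.2) s
      ((detour_infix s (nb s) ht).trans (blow_infix nb l hs))
    refine ⟨i, j, hij, congrArg Prod.fst hi, ?_⟩
    rw [← hw]; exact congrArg Prod.fst hj
  · intro w
    obtain ⟨s, hs, hw⟩ := h2 w
    obtain ⟨i, hi⟩ := hcov s (hsub s hs)
    exact ⟨i, by rw [← hw, ← hi]⟩
  · intro u v huv
    obtain ⟨s, hs, hw⟩ := h2 v
    have ht : (s.1, u) ∈ nb s := by
      rw [hmem]; right; exact ⟨rfl, by rw [hw]; exact huv.symm⟩
    obtain ⟨i, j, hij, hi, hj⟩ := hpair (s.1, u) s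
      ((detour_infix s (nb s) ht).trans (blow_infix nb l hs))
    refine ⟨i, j, hij, congrArg Prod.snd hi, ?_⟩
    rw [← hw]; exact congrArg Prod.snd hj
  · intro i
    obtain ⟨s, hs, h⟩ := blow_mem nb l (hin i)
    have hks := hk s hs
    rcases h with h | h
    · have ha : f i = s.1 := congrArg Prod.fst h
      have hb : g i = s.2 := congrArg Prod.snd h
      rw [ha, hb]; omega
    · rw [hmem] at h
      rcases h with ⟨ha, hb⟩ | ⟨ha, hb⟩
      · simp only at ha hb
        have h3 := hH.dist_triangle (u := s.1) (v := f i) (w := s.2)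
        have h4 : H.dist s.1 (f i) = 1 := dist_eq_one_iff_adj.2 ha
        rw [← hb]; omega
      · simp only at ha hb
        have h3 := hH.dist_triangle (u := s.1) (v := g i) (w := s.2)
        have h4 : H.dist (g i) s.2 = 1 := dist_eq_one_iff_adj.2 hb.symm
        rw [← ha]; omega

omit [Finite W] in
lemma minDist_le {m : ℕ} (f g : Fin (m + 1) → W) (i : Fin (m + 1)) :
    minDist H f g ≤ H.dist (f i) (g i) := ciInf_le' _ i

omit [Finite W] in
lemma exists_minDist {m : ℕ} (f g : Fin (m + 1) → W) :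
    ∃ i, minDist H f g = H.dist (f i) (g i) := by
  obtain ⟨i, hi⟩ := ciInf_mem (fun u => H.dist (f u) (g u))
  exact ⟨i, hi.symm⟩

lemma bddAbove_vertex : BddAbove (vertexValues H) := by
  have := Fintype.ofFinite W
  refine ⟨Finset.univ.sup (fun p : W × W => H.dist p.1 p.2), ?_⟩
  rintro k ⟨m, f, g, -, -, -, -, rfl⟩
  refine (minDist_le H f g 0).trans ?_
  exact Finset.le_sup (f := fun p : W × W => H.dist p.1 p.2) (Finset.mem_univ (f 0, g 0))

omit [Finite W] in
lemma edge_subset_vertex : edgeValues H ⊆ vertexValues H := by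
  rintro k ⟨m, f, g, hf, hg, hf', hg', rfl⟩
  exact ⟨m, f, g, hf, hg, hf'.1, hg'.1, rfl⟩

lemma edge_nonempty (hH : H.Connected) : (edgeValues H).Nonempty := by
  classical
  have := Fintype.ofFinite W
  obtain ⟨w0⟩ := hH.nonempty
  have hwalk : ∀ S : Finset W, ∃ (v : W) (p : H.Walk w0 v), ∀ w ∈ S, w ∈ p.support := by
    intro S
    induction S using Finset.induction_on with
    | empty => exact ⟨w0, Walk.nil, by simp⟩
    | insert a S _ ih =>
      obtain ⟨v, p, hp⟩ := ih
      obtain ⟨q⟩ := hH.preconnected v a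
      refine ⟨a, p.append q, ?_⟩
      intro w hw
      rw [Walk.mem_support_append_iff]
      rcases Finset.mem_insert.1 hw with rfl | h
      · exact Or.inr q.end_mem_support
      · exact Or.inl (hp w h)
  obtain ⟨v, p, hp⟩ := hwalk Finset.univ
  have hchain : (p.support.map (fun v => (v, v))).IsChain (Step H) := by
    rw [List.isChain_map]
    exact p.isChain_adj_support.imp (fun a b hab => ⟨Or.inr hab, Or.inr hab⟩)
  obtain ⟨m, f, g, hf, hg, hf', hg', -⟩ := edge_cover H hH _ hchain
    (fun w => ⟨(w, w), List.mem_map.2 ⟨w, hp w (Finset.mem_univ _), rfl⟩, rfl⟩)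
    (fun w => ⟨(w, w), List.mem_map.2 ⟨w, hp w (Finset.mem_univ _), rfl⟩, rfl⟩) 0
    (fun s _ => Nat.zero_le _)
  exact ⟨_, m, f, g, hf, hg, hf', hg', rfl⟩

lemma vertex_isGreatest (hH : H.Connected) :
    IsGreatest (vertexValues H) (strongVertexSpan H) :=
  ⟨Nat.sSup_mem ((edge_nonempty H hH).mono (edge_subset_vertex H)) (bddAbove_vertex H),
    fun _ hk => le_csSup (bddAbove_vertex H) hk⟩

lemma edge_isGreatest (hH : H.Connected) :
    IsGreatest (edgeValues H) (strongEdgeSpan H) :=
  have hb : BddAbove (edgeValues H) := (bddAbove_vertex H).mono (edge_subset_vertex H)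
  ⟨Nat.sSup_mem (edge_nonempty H hH) hb, fun _ hk => le_csSup hb hk⟩

lemma edge_le_vertex (hH : H.Connected) : strongEdgeSpan H ≤ strongVertexSpan H :=
  (vertex_isGreatest H hH).2 (edge_subset_vertex H (edge_isGreatest H hH).1)

lemma vertex_le_edge_add_one (hH : H.Connected) :
    strongVertexSpan H ≤ strongEdgeSpan H + 1 := by
  obtain ⟨m, f, g, hf, hg, hfs, hgs, hk⟩ := (vertex_isGreatest H hH).1
  obtain ⟨m', f', g', hf', hg', hfe, hge, hd⟩ := edge_cover H hH _ (list_of_funs H f g hf hg)
    (fun w => by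
      obtain ⟨i, hi⟩ := hfs w
      exact ⟨(f i, g i), List.mem_ofFn.2 ⟨i, rfl⟩, hi⟩)
    (fun w => by
      obtain ⟨i, hi⟩ := hgs w
      exact ⟨(f i, g i), List.mem_ofFn.2 ⟨i, rfl⟩, hi⟩)
    (strongVertexSpan H) (by
      intro s hs
      obtain ⟨i, rfl⟩ := List.mem_ofFn.1 hs
      rw [hk]; exact minDist_le H f g i)
  obtain ⟨i, hi⟩ := exists_minDist H f' g'
  have h1 : minDist H f' g' ≤ strongEdgeSpan H :=
    (edge_isGreatest H hH).2 ⟨m', f', g', hf', hg', hfe, hge, rfl⟩
  have := hd i
  omega

end general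

section example6

/-- The edges of the six-vertex example. -/
def exAdj : Fin 6 → Fin 6 → Bool := fun a b =>
  decide ((a, b) ∈ ([(0,1),(0,3),(0,4),(0,5),(1,2),(1,3),(1,4),(2,3),(2,4)] : List (Fin 6 × Fin 6)) ∨
    (b, a) ∈ ([(0,1),(0,3),(0,4),(0,5),(1,2),(1,3),(1,4),(2,3),(2,4)] : List (Fin 6 × Fin 6)))

/-- The six-vertex example: edges 01, 03, 04, 05, 12, 13, 14, 23, 24. -/
def ex : SimpleGraph (Fin 6) where
  Adj a b := exAdj a b = true
  symm := ⟨by decide⟩
  loopless := ⟨by decide⟩

instance : DecidableRel ex.Adj := fun a b => inferInstanceAs (Decidable (exAdj a b = true))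

/-- Walker one of the example. -/
def exF : Fin 11 → Fin 6 := ![5, 5, 5, 5, 0, 3, 2, 2, 4, 1, 3]

/-- Walker two of the example. -/
def exG : Fin 11 → Fin 6 := ![3, 1, 4, 2, 2, 4, 0, 5, 5, 5, 5]

lemma ex_connected : ex.Connected := by
  have h0 : ∀ v : Fin 6, ex.Reachable 0 v := by
    have h1 : ex.Reachable 0 1 := Adj.reachable (by decide)
    have h2 : ex.Reachable 1 2 := Adj.reachable (by decide)
    have h3 : ex.Reachable 0 3 := Adj.reachable (by decide)
    have h4 : ex.Reachable 0 4 := Adj.reachable (by decide)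
    have h5 : ex.Reachable 0 5 := Adj.reachable (by decide)
    intro v
    fin_cases v
    · exact Reachable.refl _
    · exact h1
    · exact h1.trans h2
    · exact h3
    · exact h4
    · exact h5
  exact { preconnected := fun u v => (h0 u).symm.trans (h0 v), nonempty := ⟨0⟩ }

lemma two_le_dist {a b : Fin 6} (hab : a ≠ b) (hadj : ¬ ex.Adj a b) : 2 ≤ ex.dist a b := by
  by_contra h
  have h' : ex.dist a b = 0 ∨ ex.dist a b = 1 := by omega
  rcases h' with h' | h'
  · exact hab (ex_connected.dist_eq_zero_iff.1 h')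
  · exact hadj (dist_eq_one_iff_adj.1 h')

lemma of_two_le_dist {a b : Fin 6} (h : 2 ≤ ex.dist a b) : a ≠ b ∧ ¬ ex.Adj a b := by
  refine ⟨?_, ?_⟩
  · rintro rfl; simp at h
  · intro hadj; rw [dist_eq_one_iff_adj.2 hadj] at h; omega

lemma dist_zero_le (b : Fin 6) : ex.dist 0 b ≤ 2 := by
  have h01 : ex.dist 0 1 = 1 := dist_eq_one_iff_adj.2 (by decide)
  have h12 : ex.dist 1 2 = 1 := dist_eq_one_iff_adj.2 (by decide)
  have h02 : ex.dist 0 2 ≤ 2 := by
    have := ex_connected.dist_triangle (u := 0) (v := 1) (w := 2)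
    omega
  fin_cases b
  · simp
  · exact h01.le.trans (by norm_num)
  · exact h02
  · exact (dist_eq_one_iff_adj.2 (by decide : ex.Adj 0 3)).le.trans (by norm_num)
  · exact (dist_eq_one_iff_adj.2 (by decide : ex.Adj 0 4)).le.trans (by norm_num)
  · exact (dist_eq_one_iff_adj.2 (by decide : ex.Adj 0 5)).le.trans (by norm_num)

lemma weakHom_of_decide (f : Fin 11 → Fin 6)
    (h : ∀ u v : Fin 11, (u.val + 1 = v.val ∨ v.val + 1 = u.val) →
      f u = f v ∨ exAdj (f u) (f v) = true) :
    IsWeakHom (pathGraph 11) ex f := by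
  intro u v huv
  rw [pathGraph_adj] at huv
  exact h u v huv

lemma two_le_vertexSpan : 2 ≤ strongVertexSpan ex := by
  have hf : IsWeakHom (pathGraph (10 + 1)) ex exF := weakHom_of_decide exF (by decide)
  have hg : IsWeakHom (pathGraph (10 + 1)) ex exG := weakHom_of_decide exG (by decide)
  have hfs : Function.Surjective exF := by decide
  have hgs : Function.Surjective exG := by decide
  obtain ⟨i, hi⟩ := exists_minDist ex (m := 10) exF exG
  have h1 : minDist ex (V := Fin (10 + 1)) exF exG ≤ strongVertexSpan ex :=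
    (vertex_isGreatest ex ex_connected).2 ⟨10, exF, exG, hf, hg, hfs, hgs, rfl⟩
  have hne : ∀ i : Fin 11, exF i ≠ exG i ∧ ¬ exAdj (exF i) (exG i) = true := by decide
  have h2 : 2 ≤ ex.dist (exF i) (exG i) := two_le_dist (hne i).1 (hne i).2
  omega

lemma vertexSpan_le_two : strongVertexSpan ex ≤ 2 := by
  obtain ⟨m, f, g, -, -, hfs, -, hk⟩ := (vertex_isGreatest ex ex_connected).1
  obtain ⟨i, hi⟩ := hfs 0
  rw [hk]
  refine (minDist_le ex f g i).trans ?_
  rw [hi]; exact dist_zero_le _

lemma edgeSpan_le_one : strongEdgeSpan ex ≤ 1 := by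
  obtain ⟨m, f, g, -, hg, hfe, -, hk⟩ := (edge_isGreatest ex ex_connected).1
  by_contra hcon
  have hall : ∀ i, 2 ≤ ex.dist (f i) (g i) := by
    intro i
    have := minDist_le ex f g i
    omega
  obtain ⟨x, y, hxy, hx, hy⟩ := hfe.2 0 1 (by decide)
  have h1 := of_two_le_dist (hall x)
  have h2 := of_two_le_dist (hall y)
  rw [hx] at h1
  rw [hy] at h2
  have h3 := hg hxy
  revert h1 h2 h3
  generalize g x = a
  generalize g y = b
  revert a b
  decide

end example6

/-- **MP_5796a1_co, Q1.**  For every finite connected graph `H` the maxima defining the strong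
vertex span and the strong edge span exist, and `σ_E(H) ≤ σ_V(H) ≤ σ_E(H) + 1`; there is a connected
graph with six vertices with `σ_V = 2` and `σ_E = 1`; consequently the largest value of
`σ_V(H) - σ_E(H)` over all finite connected graphs is `D = 1`. -/
theorem result :
    (∀ (W : Type) [Finite W] (H : SimpleGraph W), H.Connected →
      IsGreatest (vertexValues H) (strongVertexSpan H) ∧
      IsGreatest (edgeValues H) (strongEdgeSpan H) ∧
      strongEdgeSpan H ≤ strongVertexSpan H ∧ strongVertexSpan H ≤ strongEdgeSpan H + 1) ∧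
    (ex.Connected ∧ strongVertexSpan ex = 2 ∧ strongEdgeSpan ex = 1) ∧
    IsGreatest {d : ℤ | ∃ (W : Type) (_ : Finite W) (H : SimpleGraph W), H.Connected ∧
      d = (strongVertexSpan H : ℤ) - (strongEdgeSpan H : ℤ)} 1 := by
  have hV : strongVertexSpan ex = 2 := le_antisymm vertexSpan_le_two two_le_vertexSpan
  have hE : strongEdgeSpan ex = 1 := by
    have h1 := vertex_le_edge_add_one ex ex_connected
    have h2 := edgeSpan_le_one
    omega
  refine ⟨?_, ⟨ex_connected, hV, hE⟩, ?_, ?_⟩
  · intro W _ H hH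
    exact ⟨vertex_isGreatest H hH, edge_isGreatest H hH, edge_le_vertex H hH,
      vertex_le_edge_add_one H hH⟩
  · refine ⟨Fin 6, inferInstance, ex, ex_connected, ?_⟩
    rw [hV, hE]; norm_num
  · rintro d ⟨W, hW, H, hH, rfl⟩
    have := vertex_le_edge_add_one H hH
    omega

end Pool.Agent.Results.MP_5796a1_co.GapOne
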